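import Pool.Agent.Helper15.FC.St1

set_option autoImplicit false

/-!
Project FC, module UBH (MP_16cbc0_nt): matrices that do not preserve the relations occur
boundedly often.
-/

namespace Pool.Agent.Helper75.FC

open Pool.Agent.Helper15.FC Polynomial

noncomputable section

private theorem one_mem_Vj {L : Type} [Field L] {b : ℕ} {y : Fin b → PowerSeries L}
    (hVB : StVB) : (1 : PowerSeries L) ∈ Vj y 0 := by
  obtain ⟨-, -, -, hC, -⟩ := hVB L b y
  have := hC 0 1
  rwa [map_one] at this

private theorem pow_mem_Vj {L : Type} [Field L] {b : ℕ} {y : Fin b → PowerSeries L}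
    (hVB : StVB) {u : PowerSeries L} (hu : u ∈ Vj y 1) (n : ℕ) : u ^ n ∈ Vj y n := by
  induction n with
  | zero => rw [pow_zero]; exact one_mem_Vj hVB
  | succ n ih =>
    rw [pow_succ]
    exact (hVB L b y).1 n 1 _ _ ih hu

private theorem prod_mem_Vj {L : Type} [Field L] {b : ℕ} {y : Fin b → PowerSeries L}
    (hVB : StVB) {ι : Type} (s : Finset ι) (f : ι → PowerSeries L) (w : ι → ℕ)
    (h : ∀ i ∈ s, f i ∈ Vj y (w i)) : ∏ i ∈ s, f i ∈ Vj y (∑ i ∈ s, w i) := by
  classical
  induction s using Finset.induction_on with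
  | empty => simpa using one_mem_Vj hVB
  | insert a s ha ih =>
    rw [Finset.prod_insert ha, Finset.sum_insert ha]
    exact (hVB L b y).1 _ _ _ _ (h a (Finset.mem_insert_self a s))
      (ih fun i hi => h i (Finset.mem_insert_of_mem hi))

/-- values at a linear substitution of the point stay in `V_J` -/
private theorem ev_cy_mem {L : Type} [Field L] {b : ℕ} {y : Fin b → PowerSeries L}
    (hVB : StVB) (c : Matrix (Fin b) (Fin b) L) (Φ : MvPolynomial (Option (Fin b)) L) (J : ℕ)
    (hJ : ∀ d ∈ Φ.support, (d.sum fun _ e => e) ≤ J) : ev (cy c y) Φ ∈ Vj y J := by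
  classical
  obtain ⟨hmul, hmono, hX, hC, hy, -, -⟩ := hVB L b y
  have hpt : ∀ o : Option (Fin b), pt (cy c y) o ∈ Vj y 1 := by
    intro o
    cases o with
    | none =>
      have := hX 1
      rw [pow_one] at this
      exact this
    | some i =>
      change ∑ j, PowerSeries.C (c i j) * y j ∈ Vj y 1
      refine Submodule.sum_mem _ fun j _ => ?_
      have := hmul 0 1 _ _ (hC 0 (c i j)) (hy j)
      rwa [zero_add] at this
  rw [show ev (cy c y) Φ = ev (cy c y) (∑ d ∈ Φ.support, MvPolynomial.monomial d (Φ.coeff d)) by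
    rw [MvPolynomial.support_sum_monomial_coeff], map_sum]
  refine Submodule.sum_mem _ fun d hd => ?_
  unfold ev
  rw [MvPolynomial.aeval_monomial]
  have h1 : (d.prod fun i k => pt (cy c y) i ^ k) ∈ Vj y (d.sum fun _ e => e) :=
    prod_mem_Vj hVB d.support _ _ fun o _ => pow_mem_Vj hVB (hpt o) (d o)
  have h2 := hmono _ _ (hJ d hd) h1
  have h3 := hmul 0 J _ _ (hC 0 (Φ.coeff d)) h2
  rwa [zero_add] at h3

private theorem ev_map {k : Type} [Field k] {L : Type} [Field L] [Algebra k L] {b : ℕ}
    (y : Fin b → PowerSeries k) (Φ : MvPolynomial (Option (Fin b)) k) :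
    ev (upL L y) (MvPolynomial.map (algebraMap k L) Φ) =
      PowerSeries.map (algebraMap k L) (ev y Φ) := by
  unfold ev
  induction Φ using MvPolynomial.induction_on with
  | C a =>
    rw [MvPolynomial.map_C, MvPolynomial.aeval_C, MvPolynomial.aeval_C]
    change PowerSeries.C (algebraMap k L a) = PowerSeries.map (algebraMap k L) (PowerSeries.C a)
    rw [PowerSeries.map_C]
  | add p q hp hq => rw [map_add, map_add, map_add, map_add, hp, hq]
  | mul_X p i hp =>
    rw [map_mul, map_mul, map_mul, map_mul, hp, MvPolynomial.map_X, MvPolynomial.aeval_X,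
      MvPolynomial.aeval_X]
    congr 1
    cases i with
    | none => exact (PowerSeries.map_X _).symm
    | some i => rfl

private theorem cy_up {k : Type} [Field k] {L : Type} [Field L] [Algebra k L] {b : ℕ}
    (y : Fin b → PowerSeries k) (c : Matrix (Fin b) (Fin b) k) :
    cy (c.map (algebraMap k L)) (upL L y) = upL L (cy c y) := by
  funext i
  unfold cy upL
  rw [map_sum]
  refine Finset.sum_congr rfl fun j _ => ?_
  rw [map_mul, PowerSeries.map_C, Matrix.map_apply]

private theorem sys_up {k : Type} [Field k] {L : Type} [Field L] [Algebra k L] {b q : ℕ}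
    (XX : Matrix (Fin b) (Fin b) k[X]) (y : Fin b → PowerSeries k) (h : Sys q XX y) :
    Sys q (XX.map (Polynomial.map (algebraMap k L))) (upL L y) := by
  refine ⟨fun i => ?_, fun i j => ?_⟩
  · have := congrArg (PowerSeries.map (algebraMap k L)) (h.1 i)
    rw [map_pow, map_sum] at this
    refine this.trans (Finset.sum_congr rfl fun j _ => ?_)
    rw [map_mul]
    congr 1
    exact (Polynomial.polynomial_map_coe).symm
  · exact (Polynomial.natDegree_map_le).trans (h.2 i j)

/-- **UBH** -/
theorem hUBH (hVB : StVB) (hDAT : StDAT) (hDEG : StDEG) (hMOD : StMOD) (hDVD : StDVD) :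
    StUBH := by
  classical
  intro k _ _ b XX y c hsys hrel
  unfold Pool.Agent.Helper15.FC.Rel at hrel
  push Not at hrel
  obtain ⟨Φ, hΦ0, hΦ1⟩ := hrel
  refine ⟨Φ.totalDegree, fun L _ _ _ s hs hcard => ?_⟩
  set ΦL := MvPolynomial.map (algebraMap k L) Φ with hΦL
  set Y := upL L y with hY
  set cL := c.map (algebraMap k L) with hcL
  set Θ := ev (cy cL Y) ΦL with hΘ
  have hq : 2 ≤ Fintype.card k := Fintype.one_lt_card
  have hinj : Function.Injective (PowerSeries.map (algebraMap k L)) := by
    intro u v huv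
    ext n
    have := congrArg (PowerSeries.coeff n) huv
    rw [PowerSeries.coeff_map, PowerSeries.coeff_map] at this
    exact (algebraMap k L).injective this
  have hΘeq : Θ = PowerSeries.map (algebraMap k L) (ev (cy c y) Φ) := by
    rw [hΘ, hcL, hY, cy_up, hΦL, ev_map]
  have hΘ0 : Θ ≠ 0 := by
    rw [hΘeq]
    intro h0
    exact hΦ1 (hinj (by rw [h0, map_zero]))
  have hev0 : ev Y ΦL = 0 := by
    rw [hY, hΦL, ev_map, hΦ0, map_zero]
  have hΘV : Θ ∈ Vj Y Φ.totalDegree := by
    refine ev_cy_mem hVB cL ΦL _ fun d hd => ?_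
    exact MvPolynomial.le_totalDegree (MvPolynomial.support_map_subset _ _ hd)
  have hΘR : Θ ∈ RR Y := ((hVB L b Y).2.2.2.2.2.2 Θ).2 ⟨_, hΘV⟩
  set A : Finset L := Finset.univ.filter (fun a => NmX XX (Fintype.card k) a s = cL) with hA
  have hdiv : ∀ a ∈ A, Cg Y a Θ 0 := by
    intro a ha
    have hN := (Finset.mem_filter.1 ha).2
    obtain ⟨g, hg, hg2⟩ := hMOD k L b s XX y c a hsys hcard hN ΦL
    refine ⟨-g, (RR Y).neg_mem hg, ?_⟩
    have h0 : (ev (upL L y) ΦL) ^ Fintype.card L = 0 := by
      have : ev (upL L y) ΦL = 0 := hev0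
      rw [this]
      exact zero_pow Fintype.card_ne_zero
    rw [h0] at hg2
    change 0 - Θ = _ at hg2
    linear_combination -hg2
  obtain ⟨g, hg, hgeq⟩ := hDVD L b Y Θ A hΘR hdiv
  obtain ⟨I, D, C, hDat⟩ := hDAT L b (Fintype.card k) _ Y hq (sys_up XX y hsys)
  have hdeg := hDEG L b (Fintype.card k) Y I D C hDat Φ.totalDegree Θ g _ hΘV hΘ0 hg hgeq
  have hcardA : Nat.card {a : L // NmX XX (Fintype.card k) a s = cL} = A.card := by
    rw [Nat.card_eq_fintype_card, Fintype.card_subtype]
  rw [hcardA]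
  have hnd : (∏ a ∈ A, (X - Polynomial.C a) : L[X]).natDegree = A.card := by
    rw [Polynomial.natDegree_prod_of_monic _ _ fun a _ => Polynomial.monic_X_sub_C a]
    simp
  rwa [hnd] at hdeg

end

end Pool.Agent.Helper75.FC
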